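import Pool.Agent.Lib_helper34.BB.Defs

/-!
# Block DISP: displacement of positive words (MP_8d7770_pr)
-/

open MeasureTheory ProbabilityTheory Set Metric Function
open scoped ENNReal NNReal

namespace Pool.Agent.BB

lemma disp_hdist_le {n : ℕ} (o z : HSpace n) :
    hdist 1 o z ≤ 2 * Real.log (dist o.1 z.1 + √(o.1 0 * z.1 0)) - Real.log (o.1 0) -
      Real.log (z.1 0) := by
  have ho : 0 < o.1 0 := o.2
  have hz : 0 < z.1 0 := z.2
  have hs : 0 < √(o.1 0 * z.1 0) := Real.sqrt_pos.mpr (mul_pos ho hz)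
  unfold hdist
  rw [Real.sqrt_one, div_one]
  set y : ℝ := dist o.1 z.1 / (2 * √(o.1 0 * z.1 0)) with hy
  have hy0 : 0 ≤ y := by positivity
  have h1 : Real.arsinh y ≤ Real.log (2 * y + 1) := by
    unfold Real.arsinh
    refine Real.log_le_log (by positivity) ?_
    have : √(1 + y ^ 2) ≤ 1 + y := by
      rw [Real.sqrt_le_left (by positivity)]
      nlinarith
    linarith
  have h2 : 2 * y + 1 = (dist o.1 z.1 + √(o.1 0 * z.1 0)) / √(o.1 0 * z.1 0) := by
    rw [hy]
    field_simp
  have h3 : Real.log (2 * y + 1) = Real.log (dist o.1 z.1 + √(o.1 0 * z.1 0)) -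
      (Real.log (o.1 0) + Real.log (z.1 0)) / 2 := by
    rw [h2, Real.log_div (by positivity) hs.ne', Real.log_sqrt (mul_pos ho hz).le,
      Real.log_mul ho.ne' hz.ne']
  rw [h3] at h1
  linarith

theorem disp_proof (n : ℕ) {β : Type} [Fintype β] [DecidableEq β]
    (cp cm : β → EuclideanSpace ℝ (Fin (n + 1))) (hcp : ∀ i, cp i 0 = 0)
    (hcm : ∀ i, cm i 0 = 0) (hpm : ∀ i j, 3 ≤ dist (cp i) (cm j))
    (θ : FreeGroup β →* Equiv.Perm (HSpace n))
    (hθ : ∀ i z, (θ (FreeGroup.of i) z).1 = cp i + (‖z.1 - cm i‖ ^ 2)⁻¹ • (z.1 - cm i))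
    (o : HSpace n) (ho : ∀ i, 1 ≤ dist o.1 (cm i)) :
    ∃ D : ℝ, ∀ (i : β) (l : List β), hdist 1 o (θ ((i :: l).map FreeGroup.of).prod o) ≤
      D + ((i :: l).zipWith (fun a b => 2 * Real.log (dist (cp b) (cm a) + 1)) l).sum := by
  have hh : ∀ i (z : HSpace n), (θ (FreeGroup.of i) z).1 0 = z.1 0 / ‖z.1 - cm i‖ ^ 2 := by
    intro i z
    rw [hθ]
    simp only [PiLp.add_apply, PiLp.smul_apply, PiLp.sub_apply, hcp, hcm, smul_eq_mul]
    ring
  have hd : ∀ i (z : HSpace n), z.1 ≠ cm i → dist (θ (FreeGroup.of i) z).1 (cp i) =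
      1 / ‖z.1 - cm i‖ := by
    intro i z hz
    rw [hθ, dist_eq_norm, add_sub_cancel_left, norm_smul, norm_inv, norm_pow, norm_norm]
    have : ‖z.1 - cm i‖ ≠ 0 := norm_ne_zero_iff.mpr (sub_ne_zero.mpr hz)
    field_simp
  -- the constant for the heights
  set D₁ : ℝ := (∑ i, |2 * Real.log ‖o.1 - cm i‖|) + |Real.log (o.1 0)| with hD₁
  have hne : ∀ i (z : HSpace n), z.1 ≠ cm i := by
    intro i z h
    have : z.1 0 = 0 := by rw [h, hcm]
    exact z.2.ne' this
  have key : ∀ (l : List β) (i : β),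
      dist (θ ((i :: l).map FreeGroup.of).prod o).1 (cp i) ≤ 1 ∧
      -Real.log ((θ ((i :: l).map FreeGroup.of).prod o).1 0) ≤
        D₁ + ((i :: l).zipWith (fun a b => 2 * Real.log (dist (cp b) (cm a) + 1)) l).sum := by
    intro l
    induction l with
    | nil =>
      intro i
      have e1 : (([i] : List β).map FreeGroup.of).prod = FreeGroup.of i := by simp
      have h1 : 1 ≤ ‖o.1 - cm i‖ := by rw [← dist_eq_norm]; exact ho i
      rw [e1]
      constructor
      · rw [hd i o (hne i o)]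
        rw [div_le_one (by linarith)]
        exact h1
      · rw [hh, Real.log_div o.2.ne' (by positivity), Real.log_pow]
        have h2 : |2 * Real.log ‖o.1 - cm i‖| ≤ ∑ i, |2 * Real.log ‖o.1 - cm i‖| :=
          Finset.single_le_sum (f := fun i => |2 * Real.log ‖o.1 - cm i‖|)
            (fun i _ => abs_nonneg _) (Finset.mem_univ i)
        have h3 := le_abs_self (2 * Real.log ‖o.1 - cm i‖)
        have h4 := neg_abs_le (Real.log (o.1 0))
        simp only [List.zipWith_nil_right, List.sum_nil, add_zero]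
        push_cast
        rw [hD₁]
        linarith
    | cons j l ih =>
      intro i
      obtain ⟨ih1, ih2⟩ := ih j
      set z' := θ ((j :: l).map FreeGroup.of).prod o with hz'
      have e1 : θ ((i :: j :: l).map FreeGroup.of).prod o = θ (FreeGroup.of i) z' := by
        rw [List.map_cons, List.prod_cons, map_mul, Equiv.Perm.mul_apply]
      have h0 : 2 ≤ ‖z'.1 - cm i‖ := by
        rw [← dist_eq_norm]
        have h1 := dist_triangle (cp j) z'.1 (cm i)
        have h2 := hpm j i
        rw [dist_comm (cp j) z'.1] at h1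
        linarith
      have h0' : ‖z'.1 - cm i‖ ≤ dist (cp j) (cm i) + 1 := by
        rw [← dist_eq_norm]
        have h1 := dist_triangle z'.1 (cp j) (cm i)
        linarith
      rw [e1]
      constructor
      · rw [hd i z' (hne i z')]
        rw [div_le_one (by linarith)]
        linarith
      · rw [hh, Real.log_div z'.2.ne' (by positivity), Real.log_pow]
        rw [List.zipWith_cons_cons, List.sum_cons]
        have h5 : Real.log ‖z'.1 - cm i‖ ≤ Real.log (dist (cp j) (cm i) + 1) :=
          Real.log_le_log (by linarith) h0'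
        push_cast
        linarith
  -- bounded region
  set B : ℝ := (∑ i, dist o.1 (cp i)) + 1 with hB
  have hB0 : 0 < B := by
    have : 0 ≤ ∑ i, dist o.1 (cp i) := Finset.sum_nonneg fun i _ => dist_nonneg
    linarith
  refine ⟨2 * Real.log (B + √(o.1 0 * 1)) - Real.log (o.1 0) + D₁, fun i l => ?_⟩
  obtain ⟨k1, k2⟩ := key l i
  set z := θ ((i :: l).map FreeGroup.of).prod o with hz
  have h1 := disp_hdist_le o z
  have h2 : dist o.1 z.1 ≤ B := by
    have h3 := dist_triangle o.1 (cp i) z.1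
    rw [dist_comm (cp i) z.1] at h3
    have h4 : dist o.1 (cp i) ≤ ∑ i, dist o.1 (cp i) :=
      Finset.single_le_sum (f := fun i => dist o.1 (cp i)) (fun i _ => dist_nonneg)
        (Finset.mem_univ i)
    linarith
  have h3 : z.1 0 ≤ 1 := by
    have h4 : |z.1 0 - cp i 0| ≤ dist z.1 (cp i) := by
      rw [dist_eq_norm]
      have := PiLp.norm_apply_le (z.1 - cp i) 0
      simpa using this
    rw [hcp, sub_zero] at h4
    exact (le_abs_self _).trans (h4.trans k1)
  have h5 : Real.log (dist o.1 z.1 + √(o.1 0 * z.1 0)) ≤ Real.log (B + √(o.1 0 * 1)) := by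
    refine Real.log_le_log ?_ ?_
    · have := Real.sqrt_pos.mpr (mul_pos o.2 z.2)
      have := dist_nonneg (x := o.1) (y := z.1)
      linarith
    · have : √(o.1 0 * z.1 0) ≤ √(o.1 0 * 1) :=
        Real.sqrt_le_sqrt (mul_le_mul_of_nonneg_left h3 o.2.le)
      linarith
  linarith

end Pool.Agent.BB
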