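import Mathlib

/-!
# Block LAT: the lattice sum (MP_8d7770_pr)
-/

open Filter Topology

namespace Pool.Agent.BB

/-- the reflected translation -/
def lat_shift (M i m : ℕ) : ℕ := if i + M ≤ 2 * M then i + m else i - m

lemma lat_shift_lt {M i m : ℕ} (hi : i < 2 * M) (hm : m < M) : lat_shift M i m < 2 * M := by
  unfold lat_shift
  split_ifs <;> omega

lemma lat_shift_inj {M i m m' : ℕ} (_ : i < 2 * M) (hm : m < M) (hm' : m' < M)
    (h : lat_shift M i m = lat_shift M i m') : m = m' := by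
  unfold lat_shift at h
  split_ifs at h <;> omega

lemma lat_shift_abs {M i m : ℕ} (_ : i < 2 * M) (hm : m < M) :
    |((lat_shift M i m : ℕ) : ℝ) - (i : ℝ)| = m := by
  unfold lat_shift
  split_ifs with h
  · push_cast
    rw [add_sub_cancel_left, abs_of_nonneg (Nat.cast_nonneg _)]
  · rw [Nat.cast_sub (by omega)]
    rw [show (i : ℝ) - (m : ℝ) - (i : ℝ) = -(m : ℝ) by ring, abs_neg,
      abs_of_nonneg (Nat.cast_nonneg _)]

theorem lattice_proof (n : ℕ) (hn : 1 ≤ n) : ∃ (N : ℕ) (δ : ℝ), 0 < N ∧ (n : ℝ) / 2 < δ ∧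
    ∀ i : Fin n → Fin N, 1 ≤ ∑ j : Fin n → Fin N,
      ((√(∑ k : Fin n, (6 * ((j k : ℕ) : ℝ) - 6 * ((i k : ℕ) : ℝ) -
        (if (k : ℕ) = 0 then 3 else 0)) ^ 2) + 1) ^ 2) ^ (-δ) := by
  classical
  have hn0 : (1 : ℝ) ≤ n := by exact_mod_cast hn
  have hsq : 1 ≤ √(n : ℝ) := Real.one_le_sqrt.mpr hn0
  set a : ℝ := 10 * √(n : ℝ) with ha
  have ha0 : 0 < a := by positivity
  -- the auxiliary sum
  let g : ℕ → ℝ → ℝ := fun M δ => ∑ r ∈ Finset.range M,
    ((r : ℝ) + 1) ^ (n - 1) * ((a * ((r : ℝ) + 1)) ^ 2) ^ (-δ)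
  have hg : ∀ M, g M ((n : ℝ) / 2) = (a ^ n)⁻¹ * ∑ r ∈ Finset.range M, 1 / ((r : ℝ) + 1) := by
    intro M
    simp only [g]
    rw [Finset.mul_sum]
    refine Finset.sum_congr rfl fun r _ => ?_
    have hr : (0 : ℝ) < (r : ℝ) + 1 := by positivity
    have h1 : ((a * ((r : ℝ) + 1)) ^ 2) ^ (-((n : ℝ) / 2)) = ((a * ((r : ℝ) + 1)) ^ n)⁻¹ := by
      rw [Real.rpow_neg (by positivity)]
      congr 1
      rw [← Real.rpow_natCast (a * ((r : ℝ) + 1)) 2, ← Real.rpow_mul (by positivity),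
        ← Real.rpow_natCast]
      congr 1
      push_cast
      ring
    rw [h1, mul_pow]
    have h2 : ((r : ℝ) + 1) ^ n = ((r : ℝ) + 1) ^ (n - 1) * ((r : ℝ) + 1) := by
      rw [← pow_succ]
      congr 1
      omega
    rw [h2]
    field_simp
  obtain ⟨M, hM0, hM⟩ : ∃ M : ℕ, 0 < M ∧ 1 < g M ((n : ℝ) / 2) := by
    have h1 := Real.tendsto_sum_range_one_div_nat_succ_atTop
    have h2 := (h1.const_mul_atTop (inv_pos.mpr (pow_pos ha0 n))).eventually_gt_atTop 1
    obtain ⟨M, hM1, hM2⟩ := (h2.and (eventually_gt_atTop 0)).exists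
    exact ⟨M, hM2, by rw [hg]; exact hM1⟩
  have hcont : Continuous (g M) := by
    simp only [g]
    refine continuous_finsetSum _ fun r _ => ?_
    refine continuous_const.mul ?_
    have hr : (0 : ℝ) < (a * ((r : ℝ) + 1)) ^ 2 := by positivity
    exact (Real.continuous_const_rpow hr.ne').comp continuous_neg
  obtain ⟨δ, hδ1, hδ2⟩ : ∃ δ : ℝ, (n : ℝ) / 2 < δ ∧ 1 < g M δ := by
    have h1 : ∀ᶠ δ in 𝓝 ((n : ℝ) / 2), 1 < g M δ := hcont.continuousAt.eventually_const_lt hM
    have h2 : ∀ᶠ δ in 𝓝[>] ((n : ℝ) / 2), 1 < g M δ := nhdsWithin_le_nhds h1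
    obtain ⟨δ, h3, h4⟩ := (h2.and self_mem_nhdsWithin).exists
    exact ⟨δ, h4, h3⟩
  have hδ0 : 0 < δ := by
    have : (0 : ℝ) ≤ (n : ℝ) / 2 := by positivity
    linarith
  refine ⟨2 * M, δ, by omega, hδ1, fun i => ?_⟩
  -- the map m ↦ j
  let φ : (Fin n → Fin M) → (Fin n → Fin (2 * M)) := fun m k =>
    ⟨lat_shift M (i k) (m k), lat_shift_lt (i k).2 (m k).2⟩
  have hφ : Function.Injective φ := by
    intro m m' h
    ext k
    have := congrFun h k
    simp only [φ, Fin.mk.injEq] at this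
    exact lat_shift_inj (i k).2 (m k).2 (m' k).2 this
  set term : (Fin n → Fin (2 * M)) → ℝ := fun j =>
    ((√(∑ k : Fin n, (6 * ((j k : ℕ) : ℝ) - 6 * ((i k : ℕ) : ℝ) -
        (if (k : ℕ) = 0 then 3 else 0)) ^ 2) + 1) ^ 2) ^ (-δ) with hterm
  have hterm0 : ∀ j, 0 ≤ term j := fun j => by
    simp only [hterm]
    positivity
  -- the sets A r
  let A : ℕ → Finset (Fin n → Fin M) := fun r =>
    Fintype.piFinset fun k : Fin n => if (k : ℕ) = 0 then
      (Finset.univ.filter fun x : Fin M => (x : ℕ) = r) else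
      (Finset.univ.filter fun x : Fin M => (x : ℕ) < r + 1)
  have hAcard : ∀ r ∈ Finset.range M, ((A r).card : ℝ) = ((r : ℝ) + 1) ^ (n - 1) := by
    intro r hr
    have hr' : r < M := Finset.mem_range.mp hr
    simp only [A]
    rw [Fintype.card_piFinset]
    have h1 : (Finset.univ.filter fun x : Fin M => (x : ℕ) = r).card = 1 := by
      rw [Finset.card_eq_one]
      refine ⟨⟨r, hr'⟩, ?_⟩
      ext x
      simp [Fin.ext_iff]
    have h2 : (Finset.univ.filter fun x : Fin M => (x : ℕ) < r + 1).card = r + 1 := by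
      rw [Fin.card_filter_val_lt]
      omega
    have h3 : ∀ k : Fin n, (if (k : ℕ) = 0 then
      (Finset.univ.filter fun x : Fin M => (x : ℕ) = r) else
      (Finset.univ.filter fun x : Fin M => (x : ℕ) < r + 1)).card =
      if k = ⟨0, by omega⟩ then 1 else r + 1 := by
      intro k
      by_cases hk : (k : ℕ) = 0
      · rw [if_pos hk, if_pos (Fin.ext hk), h1]
      · rw [if_neg hk, if_neg (fun h => hk (by rw [h])), h2]
    simp_rw [h3]
    rw [Finset.prod_ite, Finset.prod_const_one, one_mul, Finset.prod_const]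
    have h4 : (Finset.univ.filter fun k : Fin n => ¬ k = ⟨0, by omega⟩).card = n - 1 := by
      rw [Finset.filter_not, Finset.card_sdiff_of_subset (Finset.filter_subset _ _),
        Finset.filter_eq' , if_pos (Finset.mem_univ _), Finset.card_singleton, Finset.card_univ,
        Fintype.card_fin]
    rw [h4]
    push_cast
    rfl
  have hAdisj : ∀ r ∈ Finset.range M, ∀ s ∈ Finset.range M, r ≠ s → Disjoint (A r) (A s) := by
    intro r _ s _ hrs
    rw [Finset.disjoint_left]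
    intro m hm hm'
    have h1 := (Fintype.mem_piFinset.mp hm) ⟨0, by omega⟩
    have h2 := (Fintype.mem_piFinset.mp hm') ⟨0, by omega⟩
    simp at h1 h2
    exact hrs (h1.symm.trans h2)
  have hAterm : ∀ r ∈ Finset.range M, ∀ m ∈ A r,
      ((a * ((r : ℝ) + 1)) ^ 2) ^ (-δ) ≤ term (φ m) := by
    intro r hr m hm
    have hmk : ∀ k, ((m k : ℕ) : ℝ) ≤ r := by
      intro k
      have h1 := (Fintype.mem_piFinset.mp hm) k
      by_cases hk : (k : ℕ) = 0
      · rw [if_pos hk] at h1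
        have := (Finset.mem_filter.mp h1).2
        exact_mod_cast this.le
      · rw [if_neg hk] at h1
        have := (Finset.mem_filter.mp h1).2
        exact_mod_cast Nat.lt_succ_iff.mp this
    have hsum : ∑ k : Fin n, (6 * ((φ m k : ℕ) : ℝ) - 6 * ((i k : ℕ) : ℝ) -
        (if (k : ℕ) = 0 then 3 else 0)) ^ 2 ≤ n * (6 * (r : ℝ) + 3) ^ 2 := by
      calc ∑ k : Fin n, (6 * ((φ m k : ℕ) : ℝ) - 6 * ((i k : ℕ) : ℝ) -
            (if (k : ℕ) = 0 then 3 else 0)) ^ 2 ≤ ∑ k : Fin n, (6 * (r : ℝ) + 3) ^ 2 := by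
            refine Finset.sum_le_sum fun k _ => ?_
            rw [← sq_abs]
            refine pow_le_pow_left₀ (abs_nonneg _) ?_ 2
            have h1 := lat_shift_abs (i k).2 (m k).2
            have h2 : ((φ m k : ℕ) : ℝ) = ((lat_shift M (i k) (m k) : ℕ) : ℝ) := rfl
            have h3 : |6 * ((φ m k : ℕ) : ℝ) - 6 * ((i k : ℕ) : ℝ)| ≤ 6 * r := by
              rw [← mul_sub, abs_mul, h2, h1, abs_of_pos (by norm_num : (0 : ℝ) < 6)]
              have := hmk k
              linarith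
            have h4 : |(if (k : ℕ) = 0 then (3 : ℝ) else 0)| ≤ 3 := by
              split_ifs <;> norm_num
            calc |6 * ((φ m k : ℕ) : ℝ) - 6 * ((i k : ℕ) : ℝ) -
                  (if (k : ℕ) = 0 then (3 : ℝ) else 0)| ≤
                  |6 * ((φ m k : ℕ) : ℝ) - 6 * ((i k : ℕ) : ℝ)| +
                    |(if (k : ℕ) = 0 then (3 : ℝ) else 0)| := abs_sub _ _
              _ ≤ 6 * r + 3 := by linarith
        _ = n * (6 * (r : ℝ) + 3) ^ 2 := by simp
    have hroot : √(∑ k : Fin n, (6 * ((φ m k : ℕ) : ℝ) - 6 * ((i k : ℕ) : ℝ) -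
        (if (k : ℕ) = 0 then 3 else 0)) ^ 2) ≤ √(n : ℝ) * (6 * (r : ℝ) + 3) := by
      refine (Real.sqrt_le_sqrt hsum).trans (le_of_eq ?_)
      rw [Real.sqrt_mul (by positivity), Real.sqrt_sq (by positivity)]
    have hbase : √(∑ k : Fin n, (6 * ((φ m k : ℕ) : ℝ) - 6 * ((i k : ℕ) : ℝ) -
        (if (k : ℕ) = 0 then 3 else 0)) ^ 2) + 1 ≤ a * ((r : ℝ) + 1) := by
      have hr0 : (0 : ℝ) ≤ r := Nat.cast_nonneg r
      rw [ha]
      nlinarith [mul_nonneg (Real.sqrt_nonneg (n : ℝ)) hr0]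
    simp only [hterm]
    rw [Real.rpow_neg (by positivity), Real.rpow_neg (by positivity)]
    refine inv_anti₀ (by positivity) ?_
    exact Real.rpow_le_rpow (by positivity) (pow_le_pow_left₀ (by positivity) hbase 2) hδ0.le
  calc (1 : ℝ) ≤ g M δ := hδ2.le
    _ = ∑ r ∈ Finset.range M, ∑ m ∈ A r, ((a * ((r : ℝ) + 1)) ^ 2) ^ (-δ) := by
        simp only [g]
        refine Finset.sum_congr rfl fun r hr => ?_
        rw [Finset.sum_const, nsmul_eq_mul, hAcard r hr]
    _ ≤ ∑ r ∈ Finset.range M, ∑ m ∈ A r, term (φ m) :=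
        Finset.sum_le_sum fun r hr => Finset.sum_le_sum fun m hm => hAterm r hr m hm
    _ = ∑ m ∈ (Finset.range M).biUnion A, term (φ m) := by
        rw [Finset.sum_biUnion]
        intro r hr s hs hrs
        exact hAdisj r hr s hs hrs
    _ ≤ ∑ m : Fin n → Fin M, term (φ m) :=
        Finset.sum_le_sum_of_subset_of_nonneg (Finset.subset_univ _) fun m _ _ => hterm0 _
    _ = ∑ j ∈ Finset.univ.image φ, term j := by
        rw [Finset.sum_image fun m _ m' _ h => hφ h]
    _ ≤ ∑ j : Fin n → Fin (2 * M), term j :=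
        Finset.sum_le_sum_of_subset_of_nonneg (Finset.subset_univ _) fun m _ _ => hterm0 _

end Pool.Agent.BB
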