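import Pool.Agent.Lib_helper34.BB.Defs

/-!
# Block PING: ping-pong (MP_8d7770_pr)
-/

open MeasureTheory ProbabilityTheory Set Metric Function
open scoped ENNReal NNReal

namespace Pool.Agent.BB

/-- the centre of the target ball of a letter -/
def ping_c {β E : Type} (cp cm : β → E) (x : β × Bool) : E := if x.2 then cp x.1 else cm x.1

/-- the inverse letter -/
def ping_inv {β : Type} (x : β × Bool) : β × Bool := (x.1, !x.2)

/-- the target ball of a letter -/
def ping_D {n : ℕ} {β : Type} (cp cm : β → EuclideanSpace ℝ (Fin (n + 1))) (x : β × Bool)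
    (z : HSpace n) : Prop := if x.2 then dist z.1 (cp x.1) ≤ 1 else dist z.1 (cm x.1) < 1

lemma ping_inv_inv {β : Type} (x : β × Bool) : ping_inv (ping_inv x) = x := by
  simp [ping_inv]

section

variable {n : ℕ} {β : Type} {cp cm : β → EuclideanSpace ℝ (Fin (n + 1))}

lemma ping_D_le {x : β × Bool} {z : HSpace n} (h : ping_D cp cm x z) :
    dist z.1 (ping_c cp cm x) ≤ 1 := by
  unfold ping_D at h
  unfold ping_c
  split_ifs at h ⊢
  · exact h
  · exact h.le

lemma ping_height (hcp : ∀ i, cp i 0 = 0) (hcm : ∀ i, cm i 0 = 0) (x : β × Bool) :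
    ping_c cp cm x 0 = 0 := by
  unfold ping_c
  split_ifs
  · exact hcp _
  · exact hcm _

lemma ping_height_le (hcp : ∀ i, cp i 0 = 0) (hcm : ∀ i, cm i 0 = 0) {x : β × Bool}
    {z : HSpace n} (h : ping_D cp cm x z) : z.1 0 ≤ 1 := by
  have h4 : |z.1 0 - ping_c cp cm x 0| ≤ dist z.1 (ping_c cp cm x) := by
    rw [dist_eq_norm]
    have := PiLp.norm_apply_le (z.1 - ping_c cp cm x) 0
    simpa using this
  rw [ping_height hcp hcm, sub_zero] at h4
  exact (le_abs_self _).trans (h4.trans (ping_D_le h))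

lemma ping_ne (hcp : ∀ i, cp i 0 = 0) (hcm : ∀ i, cm i 0 = 0) (x : β × Bool) (z : HSpace n) :
    0 < ‖z.1 - ping_c cp cm x‖ := by
  rw [norm_pos_iff, sub_ne_zero]
  intro h
  have : z.1 0 = 0 := by rw [h, ping_height hcp hcm]
  exact z.2.ne' this

lemma ping_far (hpp : ∀ i j, i ≠ j → 3 ≤ dist (cp i) (cp j))
    (hmm : ∀ i j, i ≠ j → 3 ≤ dist (cm i) (cm j)) (hpm : ∀ i j, 3 ≤ dist (cp i) (cm j))
    {x y : β × Bool} (hxy : x ≠ y) : 3 ≤ dist (ping_c cp cm x) (ping_c cp cm y) := by
  obtain ⟨i, e⟩ := x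
  obtain ⟨j, f⟩ := y
  cases e <;> cases f
  · exact hmm i j (fun h => hxy (by rw [h]))
  · simp only [ping_c]
    rw [dist_comm]
    exact hpm j i
  · exact hpm i j
  · exact hpp i j (fun h => hxy (by rw [h]))

/-- a point of the ball of `y` is far from the centre of `x ≠ y` -/
lemma ping_two (hpp : ∀ i j, i ≠ j → 3 ≤ dist (cp i) (cp j))
    (hmm : ∀ i j, i ≠ j → 3 ≤ dist (cm i) (cm j)) (hpm : ∀ i j, 3 ≤ dist (cp i) (cm j))
    {x y : β × Bool} (hxy : x ≠ y) {z : HSpace n} (hz : ping_D cp cm y z) :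
    2 ≤ ‖z.1 - ping_c cp cm x‖ := by
  rw [← dist_eq_norm]
  have h1 := ping_far hpp hmm hpm hxy
  have h2 := ping_D_le hz
  have h3 := dist_triangle (ping_c cp cm x) z.1 (ping_c cp cm y)
  rw [dist_comm (ping_c cp cm x) z.1] at h3
  linarith

lemma ping_not {x : β × Bool} {z : HSpace n} (h : 2 ≤ ‖z.1 - ping_c cp cm x‖) :
    ¬ ping_D cp cm x z := by
  intro h1
  have := ping_D_le h1
  rw [dist_eq_norm] at this
  linarith

lemma ping_act (θ : FreeGroup β →* Equiv.Perm (HSpace n))
    (hθ : ∀ i z, (θ (FreeGroup.of i) z).1 = cp i + (‖z.1 - cm i‖ ^ 2)⁻¹ • (z.1 - cm i))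
    (hθ' : ∀ i z, ((θ (FreeGroup.of i)).symm z).1 =
      cm i + (‖z.1 - cp i‖ ^ 2)⁻¹ • (z.1 - cp i)) (x : β × Bool) (z : HSpace n) :
    (θ (FreeGroup.mk [x]) z).1 = ping_c cp cm x +
      (‖z.1 - ping_c cp cm (ping_inv x)‖ ^ 2)⁻¹ • (z.1 - ping_c cp cm (ping_inv x)) := by
  obtain ⟨i, e⟩ := x
  cases e
  · have h1 : (FreeGroup.mk [(i, false)] : FreeGroup β) = (FreeGroup.of i)⁻¹ := by
      rfl
    rw [h1, map_inv]
    exact hθ' i z
  · exact hθ i z

end

theorem ping_proof (n : ℕ) {β : Type} [Fintype β] [DecidableEq β]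
    (cp cm : β → EuclideanSpace ℝ (Fin (n + 1))) (hcp : ∀ i, cp i 0 = 0)
    (hcm : ∀ i, cm i 0 = 0) (hpp : ∀ i j, i ≠ j → 3 ≤ dist (cp i) (cp j))
    (hmm : ∀ i j, i ≠ j → 3 ≤ dist (cm i) (cm j)) (hpm : ∀ i j, 3 ≤ dist (cp i) (cm j))
    (θ : FreeGroup β →* Equiv.Perm (HSpace n))
    (hθ : ∀ i z, (θ (FreeGroup.of i) z).1 = cp i + (‖z.1 - cm i‖ ^ 2)⁻¹ • (z.1 - cm i))
    (hθ' : ∀ i z, ((θ (FreeGroup.of i)).symm z).1 =
      cm i + (‖z.1 - cp i‖ ^ 2)⁻¹ • (z.1 - cp i)) :
    FD θ {z | ∀ i, 1 < dist z.1 (cp i) ∧ 1 ≤ dist z.1 (cm i)} ∧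
    ∀ (x : HSpace n) (R : ℝ), {γ | ∃ z, hdist 1 x z ≤ R ∧
      θ γ z ∈ {z : HSpace n | ∀ i, 1 < dist z.1 (cp i) ∧ 1 ≤ dist z.1 (cm i)}}.Finite := by
  set F : Set (HSpace n) := {z | ∀ i, 1 < dist z.1 (cp i) ∧ 1 ≤ dist z.1 (cm i)} with hF
  have hact := ping_act θ hθ hθ'
  have hFD : ∀ z, z ∈ F ↔ ∀ x, ¬ ping_D cp cm x z := by
    intro z
    constructor
    · rintro h ⟨i, e⟩ hD
      cases e
      · exact absurd (h i).2 (not_le.mpr hD)
      · exact absurd (h i).1 (not_lt.mpr hD)
    · intro h i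
      exact ⟨not_le.mp (h (i, true)), not_lt.mp (h (i, false))⟩
  have hdst : ∀ (x : β × Bool) (z : HSpace n), dist (θ (FreeGroup.mk [x]) z).1 (ping_c cp cm x) =
      1 / ‖z.1 - ping_c cp cm (ping_inv x)‖ := by
    intro x z
    have h0 := ping_ne hcp hcm (ping_inv x) z
    rw [hact, dist_eq_norm, add_sub_cancel_left, norm_smul, norm_inv, norm_pow, norm_norm]
    field_simp
  have hh : ∀ (x : β × Bool) (z : HSpace n), (θ (FreeGroup.mk [x]) z).1 0 =
      z.1 0 / ‖z.1 - ping_c cp cm (ping_inv x)‖ ^ 2 := by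
    intro x z
    rw [hact]
    simp only [PiLp.add_apply, PiLp.smul_apply, PiLp.sub_apply, ping_height hcp hcm, smul_eq_mul]
    ring
  -- (A)
  have hA : ∀ (x : β × Bool) (z : HSpace n), ¬ ping_D cp cm (ping_inv x) z →
      ping_D cp cm x (θ (FreeGroup.mk [x]) z) := by
    intro x z h
    have h0 := ping_ne hcp hcm (ping_inv x) z
    have h1 := hdst x z
    obtain ⟨i, e⟩ := x
    cases e
    · simp only [ping_D, ping_inv, ping_c, Bool.not_false, if_true, not_le,
        Bool.false_eq_true, if_false] at h h0 h1 ⊢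
      rw [h1, div_lt_one h0, ← dist_eq_norm]
      exact h
    · simp only [ping_D, ping_inv, ping_c, Bool.not_true, if_true, not_lt,
        Bool.false_eq_true, if_false] at h h0 h1 ⊢
      rw [h1, div_le_one h0, ← dist_eq_norm]
      exact h
  -- (F)
  have hB : ∀ (x : β × Bool) (z : HSpace n), ping_D cp cm x z →
      ¬ ping_D cp cm (ping_inv x) (θ (FreeGroup.mk [ping_inv x]) z) := by
    intro x z h
    have h0 := ping_ne hcp hcm x z
    have h1 := hdst (ping_inv x) z
    rw [ping_inv_inv] at h1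
    obtain ⟨i, e⟩ := x
    cases e
    · simp only [ping_D, ping_inv, ping_c, Bool.not_false, if_true, not_le,
        Bool.false_eq_true, if_false] at h h0 h1 ⊢
      rw [h1, lt_div_iff₀ h0, one_mul, ← dist_eq_norm]
      exact h
    · simp only [ping_D, ping_inv, ping_c, Bool.not_true, if_true, not_lt,
        Bool.false_eq_true, if_false] at h h0 h1 ⊢
      rw [h1, le_div_iff₀ h0, one_mul, ← dist_eq_norm]
      exact h
  -- reduced words
  have key : ∀ (L : List (β × Bool)) (x : β × Bool), FreeGroup.IsReduced (x :: L) → ∀ z ∈ F,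
      ping_D cp cm x (θ (FreeGroup.mk (x :: L)) z) ∧
      (θ (FreeGroup.mk (x :: L)) z).1 0 * 4 ^ L.length ≤ 1 := by
    intro L
    induction L with
    | nil =>
      intro x _ z hz
      have h1 := hA x z ((hFD z).mp hz _)
      refine ⟨h1, ?_⟩
      simpa using ping_height_le hcp hcm h1
    | cons y L ih =>
      intro x hred z hz
      rw [FreeGroup.isReduced_cons_cons] at hred
      obtain ⟨ih1, ih2⟩ := ih y hred.2 z hz
      set z' := θ (FreeGroup.mk (y :: L)) z with hz'
      have e1 : θ (FreeGroup.mk (x :: y :: L)) z = θ (FreeGroup.mk [x]) z' := by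
        have : (FreeGroup.mk (x :: y :: L) : FreeGroup β) =
            FreeGroup.mk [x] * FreeGroup.mk (y :: L) := by
          rw [FreeGroup.mul_mk]; rfl
        rw [this, map_mul, Equiv.Perm.mul_apply]
      have hne : ping_inv x ≠ y := by
        intro h
        have h1 := hred.1 (by rw [← h]; rfl)
        rw [← h] at h1
        simp [ping_inv] at h1
      have h2 := ping_two hpp hmm hpm hne ih1
      rw [e1]
      refine ⟨hA x z' (ping_not h2), ?_⟩
      rw [hh, List.length_cons, pow_succ]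
      have h3 : z'.1 0 / ‖z'.1 - ping_c cp cm (ping_inv x)‖ ^ 2 ≤ z'.1 0 / 4 := by
        have h4 : (4 : ℝ) ≤ ‖z'.1 - ping_c cp cm (ping_inv x)‖ ^ 2 := by nlinarith
        exact div_le_div_of_nonneg_left z'.2.le (by norm_num) h4
      calc z'.1 0 / ‖z'.1 - ping_c cp cm (ping_inv x)‖ ^ 2 * (4 ^ L.length * 4)
          ≤ z'.1 0 / 4 * (4 ^ L.length * 4) := by gcongr
        _ = z'.1 0 * 4 ^ L.length := by ring
        _ ≤ 1 := ih2
  refine ⟨⟨?_, ?_⟩, ?_⟩
  · -- existence
    have hP : ∀ (k : ℕ) (z : HSpace n), 1 < 4 ^ k * z.1 0 → ∃ γ, θ γ z ∈ F := by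
      intro k
      induction k with
      | zero =>
        intro z hz
        refine ⟨1, ?_⟩
        rw [map_one, Equiv.Perm.one_apply, hFD]
        intro x hx
        have := ping_height_le hcp hcm hx
        rw [pow_zero, one_mul] at hz
        linarith
      | succ k ih =>
        intro z hz
        by_cases hzF : z ∈ F
        · exact ⟨1, by rw [map_one, Equiv.Perm.one_apply]; exact hzF⟩
        rw [hFD] at hzF
        push Not at hzF
        obtain ⟨x, hx⟩ := hzF
        set z' := θ (FreeGroup.mk [ping_inv x]) z with hz'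
        by_cases hz'F : z' ∈ F
        · exact ⟨_, hz'F⟩
        have hz'F' := hz'F
        rw [hFD] at hz'F'
        push Not at hz'F'
        obtain ⟨y, hy⟩ := hz'F'
        have hne : ping_inv x ≠ y := by
          rintro rfl
          exact hB x z hx hy
        have h2 := ping_two hpp hmm hpm hne hy
        have h3 := hdst (ping_inv x) z
        rw [ping_inv_inv, dist_eq_norm, ← hz'] at h3
        have h4 := hh (ping_inv x) z
        rw [ping_inv_inv, ← hz'] at h4
        have h0 := ping_ne hcp hcm x z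
        have h5 : z'.1 0 = z.1 0 * ‖z'.1 - ping_c cp cm (ping_inv x)‖ ^ 2 := by
          rw [h4, h3]
          field_simp
        have h6 : 4 * z.1 0 ≤ z'.1 0 := by
          rw [h5]
          have h7 : (4 : ℝ) ≤ ‖z'.1 - ping_c cp cm (ping_inv x)‖ ^ 2 := by nlinarith
          nlinarith [z.2]
        obtain ⟨γ, hγ⟩ := ih z' (by
          calc (1 : ℝ) < 4 ^ (k + 1) * z.1 0 := hz
            _ = 4 ^ k * (4 * z.1 0) := by ring
            _ ≤ 4 ^ k * z'.1 0 := by gcongr)
        refine ⟨γ * FreeGroup.mk [ping_inv x], ?_⟩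
        rw [map_mul, Equiv.Perm.mul_apply]
        exact hγ
    intro z
    obtain ⟨k, hk⟩ := pow_unbounded_of_one_lt (1 / z.1 0) (by norm_num : (1 : ℝ) < 4)
    refine hP k z ?_
    rwa [div_lt_iff₀ z.2] at hk
  · -- uniqueness
    intro z γ γ' h h'
    by_contra hne
    have hg : γ' * γ⁻¹ ≠ 1 := by
      intro h1
      exact hne (mul_inv_eq_one.mp h1).symm
    have e1 : θ (γ' * γ⁻¹) (θ γ z) = θ γ' z := by
      rw [← Equiv.Perm.mul_apply, ← map_mul, inv_mul_cancel_right]
    have hw : (γ' * γ⁻¹).toWord ≠ [] := by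
      rw [Ne, FreeGroup.toWord_eq_nil_iff]
      exact hg
    obtain ⟨x, L, hxL⟩ := List.exists_cons_of_ne_nil hw
    have hred : FreeGroup.IsReduced (x :: L) := by
      rw [← hxL]; exact FreeGroup.isReduced_toWord
    have h1 := (key L x hred (θ γ z) h).1
    rw [← hxL, FreeGroup.mk_toWord, e1] at h1
    exact (hFD _).mp h' x h1
  · -- finiteness
    intro x R
    set s : ℝ := |Real.sinh (R / 2)| with hs
    have hs0 : 0 ≤ s := abs_nonneg _
    have hx0 := x.2
    set δ : ℝ := x.1 0 / (16 * (1 + s) ^ 2) with hδ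
    have hδ0 : 0 < δ := by positivity
    have hlow : ∀ z : HSpace n, hdist 1 x z ≤ R → δ ≤ z.1 0 := by
      intro z hz
      by_contra hlt
      push Not at hlt
      have hz0 := z.2
      set u := √(x.1 0 * z.1 0) with hu
      have hu0 : 0 < u := Real.sqrt_pos.mpr (mul_pos hx0 hz0)
      have hu2 : u ^ 2 = x.1 0 * z.1 0 := Real.sq_sqrt (mul_pos hx0 hz0).le
      have h1 : dist x.1 z.1 ≤ 2 * s * u := by
        unfold hdist at hz
        rw [Real.sqrt_one, div_one] at hz
        have h2 : Real.arsinh (dist x.1 z.1 / (2 * u)) ≤ R / 2 := by linarith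
        have h3 : dist x.1 z.1 / (2 * u) ≤ Real.sinh (R / 2) := by
          rw [← Real.sinh_arsinh (dist x.1 z.1 / (2 * u))]
          exact Real.sinh_le_sinh.mpr h2
        have h4 : dist x.1 z.1 / (2 * u) ≤ s := h3.trans (le_abs_self _)
        rw [div_le_iff₀ (by positivity)] at h4
        linarith
      have h5 : x.1 0 - z.1 0 ≤ dist x.1 z.1 := by
        rw [dist_eq_norm]
        have := PiLp.norm_apply_le (x.1 - z.1) 0
        have h6 : ‖(x.1 - z.1) 0‖ = |x.1 0 - z.1 0| := by simp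
        rw [h6] at this
        exact (le_abs_self _).trans this
      have h7 : u < x.1 0 / (4 * (1 + s)) := by
        rw [hu, Real.sqrt_lt' (by positivity)]
        calc x.1 0 * z.1 0 < x.1 0 * δ := by gcongr
          _ = (x.1 0 / (4 * (1 + s))) ^ 2 := by rw [hδ]; field_simp; ring
      have h8 : 2 * s * u ≤ x.1 0 / 2 := by
        calc 2 * s * u ≤ 2 * s * (x.1 0 / (4 * (1 + s))) := by gcongr
          _ = x.1 0 / 2 * (s / (1 + s)) := by field_simp; ring
          _ ≤ x.1 0 / 2 * 1 := by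
              have : s / (1 + s) ≤ 1 := by rw [div_le_one (by positivity)]; linarith
              gcongr
          _ = x.1 0 / 2 := mul_one _
      have h9 : δ ≤ x.1 0 / 16 := by
        rw [hδ]
        refine div_le_div_of_nonneg_left hx0.le (by norm_num) ?_
        nlinarith [mul_nonneg hs0 hs0]
      linarith
    obtain ⟨M, hM⟩ := pow_unbounded_of_one_lt (1 / δ) (by norm_num : (1 : ℝ) < 4)
    have hsub : {γ | ∃ z, hdist 1 x z ≤ R ∧ θ γ z ∈ F} ⊆
        (fun γ : FreeGroup β => (γ⁻¹).toWord) ⁻¹' {L | L.length ≤ M + 1} := by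
      rintro γ ⟨z, hz, hγ⟩
      change ((γ⁻¹).toWord).length ≤ M + 1
      by_contra hlen
      push Not at hlen
      have hw : (γ⁻¹).toWord ≠ [] := by
        intro h; rw [h] at hlen; simp at hlen
      obtain ⟨y, L, hyL⟩ := List.exists_cons_of_ne_nil hw
      have hred : FreeGroup.IsReduced (y :: L) := by
        rw [← hyL]; exact FreeGroup.isReduced_toWord
      have h1 := (key L y hred (θ γ z) hγ).2
      rw [← hyL, FreeGroup.mk_toWord, ← Equiv.Perm.mul_apply, ← map_mul, inv_mul_cancel, map_one,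
        Equiv.Perm.one_apply] at h1
      have h2 : M < L.length := by
        rw [hyL, List.length_cons] at hlen
        omega
      have h3 := hlow z hz
      have h4 : (4 : ℝ) ^ M ≤ 4 ^ L.length := pow_le_pow_right₀ (by norm_num) h2.le
      have h5 : 1 / δ < 4 ^ L.length := hM.trans_le h4
      rw [div_lt_iff₀ hδ0] at h5
      have h6 : δ * 4 ^ L.length ≤ z.1 0 * 4 ^ L.length := by gcongr
      linarith
    refine Set.Finite.subset (Set.Finite.preimage ?_ (List.finite_length_le (β × Bool) (M + 1)))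
      hsub
    intro a _ b _ hab
    exact inv_injective (FreeGroup.toWord_injective hab)

end Pool.Agent.BB
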